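import Pool.Agent.W662.KKS.Stmts

/-!
# Calculus of 3 x 3 matrices of operators (helper337, project KKS)
-/

set_option autoImplicit false
set_option linter.unusedSectionVars false

open scoped InnerProductSpace
open Pool.Agent.Helper278

namespace Pool.Agent.W337.KKS

open Pool.Agent.W662.KKS

variable {H : Type} [NormedAddCommGroup H] [InnerProductSpace ℂ H] [CompleteSpace H]

/-! ### norms in `K3 H` -/

theorem k3_ext {v w : K3 H} (h : ∀ i k, v (i, k) = w (i, k)) : v = w := by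
  ext p
  exact h p.1 p.2

theorem k3_norm_le {v : K3 H} {b : ℝ} (hb : 0 ≤ b) (h : ∀ i k, ‖v (i, k)‖ ≤ b) :
    ‖v‖ ≤ 3 * b := by
  rw [← abs_of_nonneg (norm_nonneg v), ← abs_of_nonneg (mul_nonneg (by norm_num : (0:ℝ) ≤ 3) hb),
    ← sq_le_sq, PiLp.norm_sq_eq_of_L2]
  calc ∑ p : Fin 3 × Fin 3, ‖v p‖ ^ 2 ≤ ∑ _p : Fin 3 × Fin 3, b ^ 2 := by
        refine Finset.sum_le_sum fun p _ => ?_
        exact pow_le_pow_left₀ (norm_nonneg _) (h p.1 p.2) 2
    _ = (3 * b) ^ 2 := by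
        rw [Finset.sum_const, Finset.card_univ]
        simp
        ring

theorem k3_apply_le (v : K3 H) (i k : Fin 3) : ‖v (i, k)‖ ≤ ‖v‖ :=
  PiLp.norm_apply_le v (i, k)

theorem k3_add (v w : K3 H) (i k : Fin 3) : (v + w) (i, k) = v (i, k) + w (i, k) := rfl
theorem k3_sub (v w : K3 H) (i k : Fin 3) : (v - w) (i, k) = v (i, k) - w (i, k) := rfl
theorem k3_neg (v : K3 H) (i k : Fin 3) : (-v) (i, k) = -(v (i, k)) := rfl
theorem k3_smul (z : ℂ) (v : K3 H) (i k : Fin 3) : (z • v) (i, k) = z • (v (i, k)) := rfl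

/-! ### matrices -/

theorem mm_assoc (X Y Z : Mat H) : mm (mm X Y) Z = mm X (mm Y Z) := by
  funext i k
  simp only [mm, Finset.sum_mul, Finset.mul_sum, mul_assoc]
  rw [Finset.sum_comm]

theorem m1_mm (X : Mat H) : mm m1 X = X := by
  funext i k
  simp [mm, m1]

theorem mm_m1 (X : Mat H) : mm X m1 = X := by
  funext i k
  simp [mm, m1]

variable {M : VonNeumannAlgebra H} {ξ : H} {ρ : (H →L[ℂ] H) → (H →L[ℂ] H)}

theorem Ent.mono {r r' : ℝ} (h : r ≤ r') {X : Mat H} (hX : Ent M r X) : Ent M r' X :=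
  fun i k => ⟨(hX i k).1, (hX i k).2.trans h⟩

theorem ent_mono {r r' : ℝ} {X : Mat H} (hX : Ent M r X) (h : r ≤ r') : Ent M r' X :=
  fun i k => ⟨(hX i k).1, (hX i k).2.trans h⟩

theorem ent_ms {r : ℝ} {X : Mat H} (hX : Ent M r X) : Ent M r (ms X) := by
  intro i k
  refine ⟨star_mem (hX k i).1, ?_⟩
  rw [ms, norm_star]
  exact (hX k i).2

theorem sum_mem' {f : Fin 3 → (H →L[ℂ] H)} (hf : ∀ j, f j ∈ M) : ∑ j, f j ∈ M := by
  rw [Fin.sum_univ_three]
  exact add_mem (add_mem (hf 0) (hf 1)) (hf 2)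

theorem ent_mm {r r' : ℝ} (hr : 0 ≤ r) {X Y : Mat H} (hX : Ent M r X) (hY : Ent M r' Y) :
    Ent M (3 * r * r') (mm X Y) := by
  intro i k
  refine ⟨sum_mem' fun j => mul_mem (hX i j).1 (hY j k).1, ?_⟩
  have h1 : ∀ j, ‖X i j * Y j k‖ ≤ r * r' := fun j =>
    (norm_mul_le _ _).trans (mul_le_mul (hX i j).2 (hY j k).2 (norm_nonneg _) hr)
  calc ‖mm X Y i k‖ ≤ ∑ j, ‖X i j * Y j k‖ := norm_sum_le _ _
    _ ≤ ∑ _j : Fin 3, r * r' := Finset.sum_le_sum fun j _ => h1 j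
    _ = 3 * r * r' := by simp [mul_assoc]

theorem isU_ent {X : Mat H} (hX : IsU M X) : Ent M 1 X := by
  intro i k
  refine ⟨hX.1 i k, ?_⟩
  refine ContinuousLinearMap.opNorm_le_bound _ zero_le_one fun v => ?_
  have h1 : (mm (ms X) X) k k = 1 := by rw [hX.2.1]; simp [m1]
  have h2 : ∑ j, ‖X j k v‖ ^ 2 = ‖v‖ ^ 2 := by
    have h3 := congrArg (fun T : H →L[ℂ] H => (⟪v, T v⟫_ℂ).re) h1
    simp only [mm, ms, sum_apply, mul_apply_eq_comp,
      ContinuousLinearMap.star_eq_adjoint, inner_sum, ContinuousLinearMap.adjoint_inner_right,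
      one_apply_eq_self] at h3
    rw [Complex.re_sum] at h3
    have h4 : ∀ w : H, (⟪w, w⟫_ℂ).re = ‖w‖ ^ 2 := fun w => by
      rw [inner_self_eq_norm_sq_to_K]
      norm_cast
    simp only [h4] at h3
    exact h3
  have h3 : ‖X i k v‖ ^ 2 ≤ ‖v‖ ^ 2 := by
    rw [← h2]
    exact Finset.single_le_sum (f := fun j => ‖X j k v‖ ^ 2) (fun j _ => sq_nonneg _)
      (Finset.mem_univ i)
  rw [one_mul]
  exact le_of_sq_le_sq h3 (norm_nonneg _)

/-! ### the two actions -/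

theorem Lm_mm (X Y : Mat H) (v : K3 H) : Lm (mm X Y) v = Lm X (Lm Y v) := by
  apply k3_ext
  intro i k
  simp only [Lm_apply, mm, sum_apply, mul_apply_eq_comp, map_sum]
  rw [Finset.sum_comm]

theorem Rm_mm (hS : Std M ξ ρ) {X Y : Mat H} (hX : ∀ i k, X i k ∈ M) (hY : ∀ i k, Y i k ∈ M)
    (v : K3 H) : Rm ρ (mm X Y) v = Rm ρ Y (Rm ρ X v) := by
  apply k3_ext
  intro i k
  simp only [Rm_apply, mm]
  have h1 : ∀ l, ρ (∑ j, X l j * Y j k) = ∑ j, ρ (Y j k) * ρ (X l j) := by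
    intro l
    rw [Fin.sum_univ_three, Fin.sum_univ_three,
      hS.add _ (add_mem (mul_mem (hX l 0) (hY 0 k)) (mul_mem (hX l 1) (hY 1 k))) _
        (mul_mem (hX l 2) (hY 2 k)),
      hS.add _ (mul_mem (hX l 0) (hY 0 k)) _ (mul_mem (hX l 1) (hY 1 k)),
      hS.mul _ (hX l 0) _ (hY 0 k), hS.mul _ (hX l 1) _ (hY 1 k), hS.mul _ (hX l 2) _ (hY 2 k)]
  simp only [h1, sum_apply, mul_apply_eq_comp, map_sum]
  rw [Finset.sum_comm]

theorem Lm_Rm (hS : Std M ξ ρ) {X Y : Mat H} (hX : ∀ i k, X i k ∈ M) (hY : ∀ i k, Y i k ∈ M)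
    (v : K3 H) : Lm X (Rm ρ Y v) = Rm ρ Y (Lm X v) := by
  apply k3_ext
  intro i k
  simp only [Rm_apply, Lm_apply, map_sum]
  rw [Finset.sum_comm]
  refine Finset.sum_congr rfl fun j _ => Finset.sum_congr rfl fun l _ => ?_
  have h1 := hS.comm _ (hY j k) _ (hX i l)
  have h2 := congrArg (fun T : H →L[ℂ] H => T (v (l, j))) h1
  simp only [mul_apply_eq_comp] at h2
  exact h2.symm

theorem rho_zero (hS : Std M ξ ρ) : ρ 0 = 0 := by
  have := hS.smul 0 0 (zero_mem M)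
  simpa using this

theorem Lm_m1 (v : K3 H) : Lm (m1 : Mat H) v = v := by
  apply k3_ext
  intro i k
  rw [Lm_apply, Finset.sum_eq_single i]
  · simp [m1]
  · intro j _ hj
    simp [m1, hj.symm]
  · simp

theorem Rm_m1 (hS : Std M ξ ρ) (v : K3 H) : Rm ρ (m1 : Mat H) v = v := by
  apply k3_ext
  intro i k
  rw [Rm_apply, Finset.sum_eq_single k]
  · simp [m1, hS.one]
  · intro j _ hj
    simp [m1, hj, rho_zero hS]
  · simp

theorem Lm_bound {r : ℝ} (hr : 0 ≤ r) {X : Mat H} (hX : Ent M r X) (v : K3 H) :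
    ‖Lm X v‖ ≤ 9 * r * ‖v‖ := by
  have h1 : ∀ i k, ‖(Lm X v) (i, k)‖ ≤ 3 * r * ‖v‖ := by
    intro i k
    rw [Lm_apply]
    calc ‖∑ j, X i j (v (j, k))‖ ≤ ∑ j, ‖X i j (v (j, k))‖ := norm_sum_le _ _
      _ ≤ ∑ _j : Fin 3, r * ‖v‖ := by
          refine Finset.sum_le_sum fun j _ => ?_
          exact ((X i j).le_opNorm _).trans (mul_le_mul (hX i j).2 (k3_apply_le v j k)
            (norm_nonneg _) hr)
      _ = 3 * r * ‖v‖ := by simp [mul_assoc]
  have := k3_norm_le (by positivity) h1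
  linarith

theorem Rm_bound (hS : Std M ξ ρ) {r : ℝ} (hr : 0 ≤ r) {X : Mat H} (hX : Ent M r X) (v : K3 H) :
    ‖Rm ρ X v‖ ≤ 9 * r * ‖v‖ := by
  have h1 : ∀ i k, ‖(Rm ρ X v) (i, k)‖ ≤ 3 * r * ‖v‖ := by
    intro i k
    rw [Rm_apply]
    calc ‖∑ j, ρ (X j k) (v (i, j))‖ ≤ ∑ j, ‖ρ (X j k) (v (i, j))‖ := norm_sum_le _ _
      _ ≤ ∑ _j : Fin 3, r * ‖v‖ := by
          refine Finset.sum_le_sum fun j _ => ?_
          refine ((ρ (X j k)).le_opNorm _).trans (mul_le_mul ?_ (k3_apply_le v i j)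
            (norm_nonneg _) hr)
          rw [hS.norm _ (hX j k).1]
          exact (hX j k).2
      _ = 3 * r * ‖v‖ := by simp [mul_assoc]
  have := k3_norm_le (by positivity) h1
  linarith

/-! ### cochains -/

variable {c : (H →L[ℂ] H) → (H →L[ℂ] H) → H} {T T' : (H →L[ℂ] H) → (H →L[ℂ] H)}
  {γ δ ε : ℝ}

theorem cm_bound (hc : CD M ξ ρ c T T' γ δ ε) (hδ : 0 ≤ δ) {r r' : ℝ} (hr : 0 ≤ r)
    {X Y : Mat H} (hX : Ent M r X) (hY : Ent M r' Y) :
    ‖cm c X Y‖ ≤ 9 * δ * r * r' := by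
  have hr' : 0 ≤ r' := (norm_nonneg _).trans (hY 0 0).2
  have h1 : ∀ i k, ‖(cm c X Y) (i, k)‖ ≤ 3 * δ * r * r' := by
    intro i k
    rw [cm_apply]
    calc ‖∑ j, c (X i j) (Y j k)‖ ≤ ∑ j, ‖c (X i j) (Y j k)‖ := norm_sum_le _ _
      _ ≤ ∑ _j : Fin 3, δ * r * r' := by
          refine Finset.sum_le_sum fun j _ => ?_
          refine (hc.bd _ (hX i j).1 _ (hY j k).1).trans ?_
          exact mul_le_mul (mul_le_mul_of_nonneg_left (hX i j).2 hδ) (hY j k).2 (norm_nonneg _)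
            (by positivity)
      _ = 3 * δ * r * r' := by simp [mul_assoc]
  have := k3_norm_le (by positivity) h1
  linarith

/-- three terms in the second argument -/
theorem add2_three (hc : CD M ξ ρ c T T' γ δ ε) (hε : 0 ≤ ε) {x : H →L[ℂ] H} (hx : x ∈ M)
    {a : Fin 3 → (H →L[ℂ] H)} (ha : ∀ j, a j ∈ M) {r : ℝ} (hr : ∀ j, ‖a j‖ ≤ r) :
    ‖c x (∑ j, a j) - ∑ j, c x (a j)‖ ≤ 5 * ε * ‖x‖ * r := by
  rw [Fin.sum_univ_three, Fin.sum_univ_three]
  have h1 := hc.add2 x hx (a 0 + a 1) (add_mem (ha 0) (ha 1)) (a 2) (ha 2)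
  have h2 := hc.add2 x hx (a 0) (ha 0) (a 1) (ha 1)
  have h3 : ‖a 0 + a 1‖ ≤ 2 * r := (norm_add_le _ _).trans (by linarith [hr 0, hr 1])
  have e1 : c x (a 0 + a 1 + a 2) - (c x (a 0) + c x (a 1) + c x (a 2)) =
      (c x (a 0 + a 1 + a 2) - c x (a 0 + a 1) - c x (a 2)) +
        (c x (a 0 + a 1) - c x (a 0) - c x (a 1)) := by abel
  rw [e1]
  refine (norm_add_le _ _).trans ?_
  have hx0 : 0 ≤ ε * ‖x‖ := mul_nonneg hε (norm_nonneg _)
  have h4 : ε * ‖x‖ * (‖a 0 + a 1‖ + ‖a 2‖) ≤ ε * ‖x‖ * (3 * r) :=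
    mul_le_mul_of_nonneg_left (by linarith [hr 2]) hx0
  have h5 : ε * ‖x‖ * (‖a 0‖ + ‖a 1‖) ≤ ε * ‖x‖ * (2 * r) :=
    mul_le_mul_of_nonneg_left (by linarith [hr 0, hr 1]) hx0
  calc _ ≤ ε * ‖x‖ * (3 * r) + ε * ‖x‖ * (2 * r) := by linarith
    _ = 5 * ε * ‖x‖ * r := by ring

/-- three terms in the first argument -/
theorem add1_three (hc : CD M ξ ρ c T T' γ δ ε) {x : Fin 3 → (H →L[ℂ] H)} (hx : ∀ j, x j ∈ M)
    {a : H →L[ℂ] H} (ha : a ∈ M) : c (∑ j, x j) a = ∑ j, c (x j) a := by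
  rw [Fin.sum_univ_three, Fin.sum_univ_three,
    hc.add1 _ (add_mem (hx 0) (hx 1)) _ (hx 2) _ ha, hc.add1 _ (hx 0) _ (hx 1) _ ha]

/-- MCOC with an explicit constant -/
theorem mcoc_aux (_hS : Std M ξ ρ) (hε : 0 ≤ ε) (hc : CD M ξ ρ c T T' γ δ ε) {r : ℝ}
    {X Y Z : Mat H} (hr : 0 ≤ r) (hX : Ent M r X) (hY : Ent M r Y) (hZ : Ent M r Z) :
    ‖Lm X (cm c Y Z) - cm c (mm X Y) Z + cm c X (mm Y Z) - Rm ρ Z (cm c X Y)‖ ≤
      72 * ε * r ^ 3 := by
  have h1 : ∀ i l, ‖(Lm X (cm c Y Z) - cm c (mm X Y) Z + cm c X (mm Y Z) -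
      Rm ρ Z (cm c X Y)) (i, l)‖ ≤ 24 * ε * r ^ 3 := by
    intro i l
    rw [k3_sub, k3_add, k3_sub, Lm_apply, cm_apply, cm_apply, Rm_apply]
    simp only [cm_apply]
    have e1 : ∑ k, c (mm X Y i k) (Z k l) = ∑ j, ∑ k, c (X i j * Y j k) (Z k l) := by
      rw [Finset.sum_comm]
      refine Finset.sum_congr rfl fun k _ => ?_
      exact add1_three hc (fun j => mul_mem (hX i j).1 (hY j k).1) (hZ k l).1
    have e2 : ∑ k, (ρ (Z k l)) (∑ j, c (X i j) (Y j k)) =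
        ∑ j, ∑ k, ρ (Z k l) (c (X i j) (Y j k)) := by
      rw [Finset.sum_comm]
      refine Finset.sum_congr rfl fun k _ => ?_
      rw [map_sum]
    have e3 : ∑ j, (X i j) (∑ k, c (Y j k) (Z k l)) = ∑ j, ∑ k, X i j (c (Y j k) (Z k l)) := by
      refine Finset.sum_congr rfl fun j _ => ?_
      rw [map_sum]
    rw [e1, e2, e3]
    have e4 : ∑ j, ∑ k, X i j (c (Y j k) (Z k l)) - ∑ j, ∑ k, c (X i j * Y j k) (Z k l) +
        ∑ j, c (X i j) (mm Y Z j l) - ∑ j, ∑ k, ρ (Z k l) (c (X i j) (Y j k)) =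
        ∑ j, (∑ k, (X i j (c (Y j k) (Z k l)) - c (X i j * Y j k) (Z k l) +
          c (X i j) (Y j k * Z k l) - ρ (Z k l) (c (X i j) (Y j k))) +
          (c (X i j) (mm Y Z j l) - ∑ k, c (X i j) (Y j k * Z k l))) := by
      simp only [Finset.sum_add_distrib, Finset.sum_sub_distrib]
      abel
    rw [e4]
    have h2 : ∀ j, ‖∑ k, (X i j (c (Y j k) (Z k l)) - c (X i j * Y j k) (Z k l) +
          c (X i j) (Y j k * Z k l) - ρ (Z k l) (c (X i j) (Y j k))) +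
          (c (X i j) (mm Y Z j l) - ∑ k, c (X i j) (Y j k * Z k l))‖ ≤ 8 * ε * r ^ 3 := by
      intro j
      have h3 : ∀ k, ‖X i j (c (Y j k) (Z k l)) - c (X i j * Y j k) (Z k l) +
          c (X i j) (Y j k * Z k l) - ρ (Z k l) (c (X i j) (Y j k))‖ ≤ ε * r ^ 3 := by
        intro k
        refine (hc.coc _ (hX i j).1 _ (hY j k).1 _ (hZ k l).1).trans ?_
        calc ε * ‖X i j‖ * ‖Y j k‖ * ‖Z k l‖ ≤ ε * r * r * r := by
              have q1 : ε * ‖X i j‖ ≤ ε * r := mul_le_mul_of_nonneg_left (hX i j).2 hε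
              have q2 : ε * ‖X i j‖ * ‖Y j k‖ ≤ ε * r * r :=
                mul_le_mul q1 (hY j k).2 (norm_nonneg _) (by positivity)
              exact mul_le_mul q2 (hZ k l).2 (norm_nonneg _) (by positivity)
          _ = ε * r ^ 3 := by ring
      have h4 : ‖c (X i j) (mm Y Z j l) - ∑ k, c (X i j) (Y j k * Z k l)‖ ≤ 5 * ε * r ^ 3 := by
        have h5 := add2_three hc hε (hX i j).1 (a := fun k => Y j k * Z k l)
          (fun k => mul_mem (hY j k).1 (hZ k l).1) (r := r * r)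
          (fun k => (norm_mul_le _ _).trans (mul_le_mul (hY j k).2 (hZ k l).2 (norm_nonneg _) hr))
        refine h5.trans ?_
        calc 5 * ε * ‖X i j‖ * (r * r) ≤ 5 * ε * r * (r * r) := by
              refine mul_le_mul_of_nonneg_right ?_ (by positivity)
              exact mul_le_mul_of_nonneg_left (hX i j).2 (by positivity)
          _ = 5 * ε * r ^ 3 := by ring
      refine (norm_add_le _ _).trans ?_
      have h6 : ‖∑ k, (X i j (c (Y j k) (Z k l)) - c (X i j * Y j k) (Z k l) +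
          c (X i j) (Y j k * Z k l) - ρ (Z k l) (c (X i j) (Y j k)))‖ ≤ 3 * (ε * r ^ 3) := by
        refine (norm_sum_le _ _).trans ?_
        calc _ ≤ ∑ _k : Fin 3, ε * r ^ 3 := Finset.sum_le_sum fun k _ => h3 k
          _ = 3 * (ε * r ^ 3) := by simp
      linarith
    calc _ ≤ ∑ j, ‖_‖ := norm_sum_le _ _
      _ ≤ ∑ _j : Fin 3, 8 * ε * r ^ 3 := Finset.sum_le_sum fun j _ => h2 j
      _ = 24 * ε * r ^ 3 := by simp; ring
  have := k3_norm_le (by positivity) h1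
  linarith

theorem mcoc : S_MCOC := by
  refine ⟨72, by norm_num, ?_⟩
  intro H _ _ _ M ξ ρ c T T' γ δ ε hS _ _ hε hc r X Y Z hr hX hY hZ
  exact mcoc_aux hS hε hc hr hX hY hZ

/-! ### means -/

/-- boundedness -/
def Bd {I K : Type} [NormedAddCommGroup K] (f : I → K) : Prop := ∃ C : ℝ, ∀ i, ‖f i‖ ≤ C

section means

variable {I K : Type} [NormedAddCommGroup K] [InnerProductSpace ℂ K] {E : (I → K) → K}

theorem Bd.add {f g : I → K} (hf : Bd f) (hg : Bd g) : Bd (fun i => f i + g i) := by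
  obtain ⟨C, hC⟩ := hf
  obtain ⟨D, hD⟩ := hg
  exact ⟨C + D, fun i => (norm_add_le _ _).trans (add_le_add (hC i) (hD i))⟩

theorem Bd.clm (T : K →L[ℂ] K) {f : I → K} (hf : Bd f) : Bd (fun i => T (f i)) := by
  obtain ⟨C, hC⟩ := hf
  exact ⟨‖T‖ * C, fun i => (T.le_opNorm _).trans
    (mul_le_mul_of_nonneg_left (hC i) (norm_nonneg _))⟩

theorem Bd.neg {f : I → K} (hf : Bd f) : Bd (fun i => -f i) := by
  obtain ⟨C, hC⟩ := hf
  exact ⟨C, fun i => by rw [norm_neg]; exact hC i⟩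

theorem Bd.sub {f g : I → K} (hf : Bd f) (hg : Bd g) : Bd (fun i => f i - g i) := by
  obtain ⟨C, hC⟩ := hf
  obtain ⟨D, hD⟩ := hg
  exact ⟨C + D, fun i => (norm_sub_le _ _).trans (add_le_add (hC i) (hD i))⟩

theorem Bd.smul (z : ℂ) {f : I → K} (hf : Bd f) : Bd (fun i => z • f i) := by
  obtain ⟨C, hC⟩ := hf
  exact ⟨‖z‖ * C, fun i => by
    rw [norm_smul]; exact mul_le_mul_of_nonneg_left (hC i) (norm_nonneg _)⟩

theorem Bd.const (v : K) : Bd (fun _ : I => v) := ⟨‖v‖, fun _ => le_rfl⟩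

theorem Bd.sum {ι : Type} (s : Finset ι) {f : ι → I → K} (hf : ∀ j, Bd (f j)) :
    Bd (fun i => ∑ j ∈ s, f j i) := by
  classical
  induction s using Finset.induction_on with
  | empty => simpa using Bd.const (I := I) (0 : K)
  | insert a s ha ih =>
    have h1 : (fun i => ∑ j ∈ insert a s, f j i) = fun i => f a i + ∑ j ∈ s, f j i := by
      funext i; rw [Finset.sum_insert ha]
    rw [h1]
    exact (hf a).add ih

theorem E_add (hE : IsVMean E) {f g : I → K} (hf : Bd f) (hg : Bd g) :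
    E (fun i => f i + g i) = E f + E g := by
  obtain ⟨C, hC⟩ := hf
  obtain ⟨D, hD⟩ := hg
  exact hE.add f g (max C D) (fun i => (hC i).trans (le_max_left _ _))
    (fun i => (hD i).trans (le_max_right _ _))

theorem E_clm (hE : IsVMean E) (T : K →L[ℂ] K) {f : I → K} (hf : Bd f) :
    E (fun i => T (f i)) = T (E f) := by
  obtain ⟨C, hC⟩ := hf
  exact hE.clm T f C hC

theorem E_smul (hE : IsVMean E) (z : ℂ) {f : I → K} (hf : Bd f) :
    E (fun i => z • f i) = z • E f := by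
  have := E_clm hE (z • ContinuousLinearMap.id ℂ K) hf
  simpa using this

theorem E_neg (hE : IsVMean E) {f : I → K} (hf : Bd f) : E (fun i => -f i) = -E f := by
  have := E_smul hE (-1) hf
  simpa using this

theorem E_sub (hE : IsVMean E) {f g : I → K} (hf : Bd f) (hg : Bd g) :
    E (fun i => f i - g i) = E f - E g := by
  have h1 : (fun i => f i - g i) = fun i => f i + (-g i) := by
    funext i; rw [sub_eq_add_neg]
  rw [h1, E_add hE hf hg.neg, E_neg hE hg, sub_eq_add_neg]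

theorem E_sum (hE : IsVMean E) {ι : Type} (s : Finset ι) {f : ι → I → K}
    (hf : ∀ j, Bd (f j)) : E (fun i => ∑ j ∈ s, f j i) = ∑ j ∈ s, E (f j) := by
  classical
  induction s using Finset.induction_on with
  | empty => simpa using hE.const (0 : K)
  | insert a s ha ih =>
    have h1 : (fun i => ∑ j ∈ insert a s, f j i) = fun i => f a i + ∑ j ∈ s, f j i := by
      funext i; rw [Finset.sum_insert ha]
    rw [h1, E_add hE (hf a) (Bd.sum s hf), ih, Finset.sum_insert ha]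

end means

end Pool.Agent.W337.KKS
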