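import Pool.Agent.W337.KKS.Base

/-!
# EXP: the expansion of `FF` (helper337, project KKS)
-/

set_option autoImplicit false
set_option linter.unusedSectionVars false

open scoped InnerProductSpace
open Pool.Agent.Helper278

namespace Pool.Agent.W337.KKS

open Pool.Agent.W662.KKS

variable {H : Type} [NormedAddCommGroup H] [InnerProductSpace ℂ H] [CompleteSpace H]
variable {M : VonNeumannAlgebra H} {ξ : H} {ρ : (H →L[ℂ] H) → (H →L[ℂ] H)}
variable {c : (H →L[ℂ] H) → (H →L[ℂ] H) → H} {T T' : (H →L[ℂ] H) → (H →L[ℂ] H)}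
  {γ δ ε : ℝ}

theorem isU_msm {s : Mat H} (hs : IsU M s) : mm (ms s) s = m1 := hs.2.1
theorem isU_mms {s : Mat H} (hs : IsU M s) : mm s (ms s) = m1 := hs.2.2

/-- the pointwise identity -/
theorem point_identity (hS : Std M ξ ρ) {s t X Y : Mat H} (hs : IsU M s) (ht : IsU M t)
    (hX : Ent M 1 X) (hY : Ent M 1 Y) :
    Lm (ms s) (Rm ρ s (cm c (mm s (mm X t)) (mm (ms t) (mm Y (ms s))))) -
      (cm c X Y + Lm X (Rm ρ s (cm c t (mm (ms t) (mm Y (ms s)))) - Rm ρ s (cm c Y (ms s))) -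
        Rm ρ Y (Rm ρ (ms t) (cm c X t) + Lm (ms s) (Rm ρ (ms t) (cm c s (mm X t)))) +
        (Rm ρ s (cm c (mm X Y) (ms s)) +
          Lm (ms s) (Rm ρ s (cm c s (mm (mm X Y) (ms s)))))) =
    - Lm (ms s) (Rm ρ s (Lm s (cm c (mm X t) (mm (ms t) (mm Y (ms s)))) -
        cm c (mm s (mm X t)) (mm (ms t) (mm Y (ms s))) +
        cm c s (mm (mm X t) (mm (ms t) (mm Y (ms s)))) -
        Rm ρ (mm (ms t) (mm Y (ms s))) (cm c s (mm X t)))) -
    Rm ρ s (Lm X (cm c t (mm (ms t) (mm Y (ms s)))) - cm c (mm X t) (mm (ms t) (mm Y (ms s))) +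
        cm c X (mm t (mm (ms t) (mm Y (ms s)))) -
        Rm ρ (mm (ms t) (mm Y (ms s))) (cm c X t)) +
    Rm ρ s (Lm X (cm c Y (ms s)) - cm c (mm X Y) (ms s) + cm c X (mm Y (ms s)) -
        Rm ρ (ms s) (cm c X Y)) := by
  have hsM : ∀ i k, s i k ∈ M := hs.1
  have hSM : ∀ i k, ms s i k ∈ M := fun i k => (ent_ms (isU_ent hs) i k).1
  have hTM : ∀ i k, ms t i k ∈ M := fun i k => (ent_ms (isU_ent ht) i k).1
  have hXM : ∀ i k, X i k ∈ M := fun i k => (hX i k).1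
  have hYM : ∀ i k, Y i k ∈ M := fun i k => (hY i k).1
  have hZM : ∀ i k, (mm (ms t) (mm Y (ms s))) i k ∈ M := fun i k =>
    (ent_mm zero_le_one (ent_ms (isU_ent ht)) (ent_mm zero_le_one hY (ent_ms (isU_ent hs))) i k).1
  have f1 : mm t (mm (ms t) (mm Y (ms s))) = mm Y (ms s) := by
    rw [← mm_assoc, isU_mms ht, m1_mm]
  have f2 : mm (mm X t) (mm (ms t) (mm Y (ms s))) = mm (mm X Y) (ms s) := by
    rw [mm_assoc, f1, mm_assoc]
  have f3 : mm (mm (ms t) (mm Y (ms s))) s = mm (ms t) Y := by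
    rw [mm_assoc, mm_assoc, isU_msm hs, mm_m1]
  rw [f1, f2]
  obtain ⟨Z, hZ⟩ : ∃ Z, Z = mm (ms t) (mm Y (ms s)) := ⟨_, rfl⟩
  rw [← hZ] at f3 hZM ⊢
  have g1 : ∀ v : K3 H, Lm (ms s) (Rm ρ s (Lm s v)) = Rm ρ s v := by
    intro v
    rw [← Lm_Rm hS hsM hsM, ← Lm_mm, isU_msm hs, Lm_m1]
  have g2 : ∀ v : K3 H, Rm ρ s (Rm ρ Z v) = Rm ρ Y (Rm ρ (ms t) v) := by
    intro v
    rw [← Rm_mm hS hZM hsM, f3, Rm_mm hS hTM hYM]
  have g3 : ∀ v : K3 H, Rm ρ s (Rm ρ (ms s) v) = v := by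
    intro v
    rw [← Rm_mm hS hSM hsM, isU_msm hs, Rm_m1 hS]
  have g4 : ∀ v : K3 H, Rm ρ s (Lm X v) = Lm X (Rm ρ s v) := fun v => (Lm_Rm hS hXM hsM v).symm
  have g5 : ∀ v : K3 H, Lm (ms s) (Rm ρ Y v) = Rm ρ Y (Lm (ms s) v) := fun v =>
    Lm_Rm hS hSM hYM v
  simp only [map_sub, map_add, g1, g2, g3, g4, g5]
  abel

theorem exp' (_h : S_MCOC) : S_EXP := by
  refine ⟨99 * (72 * 9 ^ 3), by norm_num, ?_⟩
  intro H _ _ _ M ξ ρ c T T' γ δ ε hS _ hδ hε hc I s t E hE _ hs ht X Y hX hY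
  -- entries
  have es : ∀ i, Ent M 1 (s i) := fun i => isU_ent (hs i)
  have et : ∀ i, Ent M 1 (t i) := fun i => isU_ent (ht i)
  have es' : ∀ i, Ent M 1 (ms (s i)) := fun i => ent_ms (es i)
  have et' : ∀ i, Ent M 1 (ms (t i)) := fun i => ent_ms (et i)
  have eXt : ∀ i, Ent M 3 (mm X (t i)) := fun i =>
    ent_mono (ent_mm zero_le_one hX (et i)) (by norm_num)
  have eXY : Ent M 3 (mm X Y) := ent_mono (ent_mm zero_le_one hX hY) (by norm_num)
  have eYS : ∀ i, Ent M 3 (mm Y (ms (s i))) := fun i =>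
    ent_mono (ent_mm zero_le_one hY (es' i)) (by norm_num)
  have eXYS : ∀ i, Ent M 9 (mm (mm X Y) (ms (s i))) := fun i =>
    ent_mono (ent_mm (by norm_num) eXY (es' i)) (by norm_num)
  have eZ : ∀ i, Ent M 9 (mm (ms (t i)) (mm Y (ms (s i)))) := fun i =>
    ent_mono (ent_mm zero_le_one (et' i) (eYS i)) (by norm_num)
  have esXt : ∀ i, Ent M 9 (mm (s i) (mm X (t i))) := fun i =>
    ent_mono (ent_mm zero_le_one (es i) (eXt i)) (by norm_num)
  -- bounds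
  have bL : ∀ (r : ℝ), 0 ≤ r → ∀ (f : I → K3 H) (S : I → Mat H), (∀ i, Ent M r (S i)) → Bd f →
      Bd (fun i => Lm (S i) (f i)) := by
    rintro r hr f S hS' ⟨C, hC⟩
    exact ⟨9 * r * C, fun i => (Lm_bound hr (hS' i) (f i)).trans
      (mul_le_mul_of_nonneg_left (hC i) (by positivity))⟩
  have bR : ∀ (r : ℝ), 0 ≤ r → ∀ (f : I → K3 H) (S : I → Mat H), (∀ i, Ent M r (S i)) → Bd f →
      Bd (fun i => Rm ρ (S i) (f i)) := by
    rintro r hr f S hS' ⟨C, hC⟩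
    exact ⟨9 * r * C, fun i => (Rm_bound hS hr (hS' i) (f i)).trans
      (mul_le_mul_of_nonneg_left (hC i) (by positivity))⟩
  have bc : ∀ (r r' : ℝ), 0 ≤ r → ∀ (A B : I → Mat H), (∀ i, Ent M r (A i)) →
      (∀ i, Ent M r' (B i)) → Bd (fun i => cm c (A i) (B i)) := by
    intro r r' hr A B hA hB
    exact ⟨9 * δ * r * r', fun i => cm_bound hc hδ hr (hA i) (hB i)⟩
  have bA1 : Bd (fun i => Rm ρ (s i) (cm c (t i) (mm (ms (t i)) (mm Y (ms (s i)))))) :=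
    bR 1 zero_le_one _ _ es (bc 1 9 zero_le_one _ _ et eZ)
  have bA2 : Bd (fun i => Rm ρ (s i) (cm c Y (ms (s i)))) :=
    bR 1 zero_le_one _ _ es (bc 1 1 zero_le_one _ _ (fun _ => hY) es')
  have bB1 : Bd (fun i => Rm ρ (ms (t i)) (cm c X (t i))) :=
    bR 1 zero_le_one _ _ et' (bc 1 1 zero_le_one _ _ (fun _ => hX) et)
  have bB2 : Bd (fun i => Lm (ms (s i)) (Rm ρ (ms (t i)) (cm c (s i) (mm X (t i))))) :=
    bL 1 zero_le_one _ _ es' (bR 1 zero_le_one _ _ et' (bc 1 3 zero_le_one _ _ es eXt))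
  have bC1 : Bd (fun i => Rm ρ (s i) (cm c (mm X Y) (ms (s i)))) :=
    bR 1 zero_le_one _ _ es (bc 3 1 (by norm_num) _ _ (fun _ => eXY) es')
  have bC2 : Bd (fun i => Lm (ms (s i)) (Rm ρ (s i) (cm c (s i) (mm (mm X Y) (ms (s i)))))) :=
    bL 1 zero_le_one _ _ es' (bR 1 zero_le_one _ _ es (bc 1 9 zero_le_one _ _ es eXYS))
  have bA := bA1.sub bA2
  have bB := bB1.add bB2
  have bC := bC1.add bC2
  have bLX := bA.clm (Lm X)
  have bRY := bB.clm (Rm ρ Y)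
  -- the error
  obtain ⟨er, her⟩ : ∃ er : I → K3 H, er = fun i =>
    - Lm (ms (s i)) (Rm ρ (s i) (Lm (s i) (cm c (mm X (t i)) (mm (ms (t i)) (mm Y (ms (s i))))) -
        cm c (mm (s i) (mm X (t i))) (mm (ms (t i)) (mm Y (ms (s i)))) +
        cm c (s i) (mm (mm X (t i)) (mm (ms (t i)) (mm Y (ms (s i))))) -
        Rm ρ (mm (ms (t i)) (mm Y (ms (s i)))) (cm c (s i) (mm X (t i))))) -
    Rm ρ (s i) (Lm X (cm c (t i) (mm (ms (t i)) (mm Y (ms (s i))))) -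
        cm c (mm X (t i)) (mm (ms (t i)) (mm Y (ms (s i)))) +
        cm c X (mm (t i) (mm (ms (t i)) (mm Y (ms (s i))))) -
        Rm ρ (mm (ms (t i)) (mm Y (ms (s i)))) (cm c X (t i))) +
    Rm ρ (s i) (Lm X (cm c Y (ms (s i))) - cm c (mm X Y) (ms (s i)) + cm c X (mm Y (ms (s i))) -
        Rm ρ (ms (s i)) (cm c X Y)) := ⟨_, rfl⟩
  have her2 : ∀ i, ‖er i‖ ≤ 99 * (72 * 9 ^ 3) * ε := by
    intro i
    rw [her]
    have m1' := mcoc_aux hS hε hc (r := 9) (by norm_num) (ent_mono (es i) (by norm_num))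
      (ent_mono (eXt i) (by norm_num)) (eZ i)
    have m2' := mcoc_aux hS hε hc (r := 9) (by norm_num) (ent_mono hX (by norm_num))
      (ent_mono (et i) (by norm_num)) (eZ i)
    have m3' := mcoc_aux hS hε hc (r := 9) (by norm_num) (ent_mono hX (by norm_num))
      (ent_mono hY (by norm_num)) (ent_mono (es' i) (by norm_num))
    have n1 := Lm_bound zero_le_one (es' i) (Rm ρ (s i) (Lm (s i) (cm c (mm X (t i))
        (mm (ms (t i)) (mm Y (ms (s i))))) -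
        cm c (mm (s i) (mm X (t i))) (mm (ms (t i)) (mm Y (ms (s i)))) +
        cm c (s i) (mm (mm X (t i)) (mm (ms (t i)) (mm Y (ms (s i))))) -
        Rm ρ (mm (ms (t i)) (mm Y (ms (s i)))) (cm c (s i) (mm X (t i)))))
    have n1' := Rm_bound hS zero_le_one (es i) (Lm (s i) (cm c (mm X (t i))
        (mm (ms (t i)) (mm Y (ms (s i))))) -
        cm c (mm (s i) (mm X (t i))) (mm (ms (t i)) (mm Y (ms (s i)))) +
        cm c (s i) (mm (mm X (t i)) (mm (ms (t i)) (mm Y (ms (s i))))) -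
        Rm ρ (mm (ms (t i)) (mm Y (ms (s i)))) (cm c (s i) (mm X (t i))))
    have n2 := Rm_bound hS zero_le_one (es i) (Lm X (cm c (t i) (mm (ms (t i)) (mm Y (ms (s i))))) -
        cm c (mm X (t i)) (mm (ms (t i)) (mm Y (ms (s i)))) +
        cm c X (mm (t i) (mm (ms (t i)) (mm Y (ms (s i))))) -
        Rm ρ (mm (ms (t i)) (mm Y (ms (s i)))) (cm c X (t i)))
    have n3 := Rm_bound hS zero_le_one (es i) (Lm X (cm c Y (ms (s i))) -
        cm c (mm X Y) (ms (s i)) + cm c X (mm Y (ms (s i))) -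
        Rm ρ (ms (s i)) (cm c X Y))
    refine (norm_add_le _ _).trans ?_
    refine (add_le_add_left (norm_sub_le _ _) _).trans ?_
    rw [norm_neg]
    linarith
  -- the decomposition
  have hdec : (fun i => Lm (ms (s i)) (Rm ρ (s i)
    (cm c (mm (s i) (mm X (t i))) (mm (ms (t i)) (mm Y (ms (s i))))))) = fun i =>
      ((((cm c X Y + Lm X (Rm ρ (s i) (cm c (t i) (mm (ms (t i)) (mm Y (ms (s i))))) -
        Rm ρ (s i) (cm c Y (ms (s i))))) +
        (-(Rm ρ Y (Rm ρ (ms (t i)) (cm c X (t i)) +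
          Lm (ms (s i)) (Rm ρ (ms (t i)) (cm c (s i) (mm X (t i)))))))) +
        (Rm ρ (s i) (cm c (mm X Y) (ms (s i))) +
          Lm (ms (s i)) (Rm ρ (s i) (cm c (s i) (mm (mm X Y) (ms (s i))))))) + er i) := by
    funext i
    have h1 := point_identity (c := c) hS (hs i) (ht i) hX hY
    rw [her]
    simp only
    rw [← h1]
    abel
  have ber : Bd er := ⟨_, her2⟩
  have hFF : FF ρ c s t E X Y = cm c X Y + Lm X (pp ρ c s t E Y) + Rm ρ Y (qq ρ c s t E X)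
      + hh ρ c s E (mm X Y) + E er := by
    rw [FF, hdec, E_add hE ((((Bd.const _).add bLX).add bRY.neg).add bC) ber,
      E_add hE (((Bd.const _).add bLX).add bRY.neg) bC, E_add hE ((Bd.const _).add bLX) bRY.neg,
      E_add hE (Bd.const _) bLX, hE.const, E_neg hE bRY, E_clm hE (Lm X) bA,
      E_clm hE (Rm ρ Y) bB, pp, qq, hh, map_neg]
  rw [hFF, add_sub_cancel_left]
  exact hE.bound er _ her2

end Pool.Agent.W337.KKS
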