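import Pool.Agent.W337.KKS.Base

/-!
# OPR: operator form of `pp` and `qq` (helper337, project KKS)
-/

set_option autoImplicit false
set_option linter.unusedSectionVars false

open scoped InnerProductSpace
open Pool.Agent.Helper278

namespace Pool.Agent.W337.KKS

open Pool.Agent.W662.KKS

variable {H : Type} [NormedAddCommGroup H] [InnerProductSpace ℂ H] [CompleteSpace H]
variable {M : VonNeumannAlgebra H} {ξ : H} {ρ : (H →L[ℂ] H) → (H →L[ℂ] H)}
variable {c : (H →L[ℂ] H) → (H →L[ℂ] H) → H} {T T' : (H →L[ℂ] H) → (H →L[ℂ] H)}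
  {γ δ ε : ℝ}

theorem exists_meanOp {I K : Type} [NormedAddCommGroup K] [InnerProductSpace ℂ K]
    {E : (I → K) → K} (hE : IsVMean E) (Φ : I → K →L[ℂ] K) {C : ℝ} (hC : 0 ≤ C)
    (hΦ : ∀ i, ‖Φ i‖ ≤ C) : ∃ A : K →L[ℂ] K, ‖A‖ ≤ C ∧ ∀ v, A v = E (fun i => Φ i v) := by
  have hb : ∀ v i, ‖Φ i v‖ ≤ C * ‖v‖ := fun v i =>
    ((Φ i).le_opNorm v).trans (mul_le_mul_of_nonneg_right (hΦ i) (norm_nonneg _))
  let A : K →ₗ[ℂ] K :=
    { toFun := fun v => E (fun i => Φ i v)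
      map_add' := fun v w => by
        simp only [map_add]
        exact E_add hE ⟨_, hb v⟩ ⟨_, hb w⟩
      map_smul' := fun z v => by
        simp only [map_smul, RingHom.id_apply]
        exact E_smul hE z ⟨_, hb v⟩ }
  refine ⟨A.mkContinuous C (fun v => hE.bound _ _ (hb v)), ?_, fun v => rfl⟩
  exact LinearMap.mkContinuous_norm_le _ hC _

/-- apply a map to the entries -/
def mp (T : (H →L[ℂ] H) → (H →L[ℂ] H)) (X : Mat H) : Mat H := fun i k => T (X i k)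

theorem Lm_op {r : ℝ} (hr : 0 ≤ r) {X : Mat H} (hX : ∀ i k, ‖X i k‖ ≤ r) : ‖Lm X‖ ≤ 9 * r := by
  refine ContinuousLinearMap.opNorm_le_bound _ (by positivity) fun v => ?_
  have h1 : ∀ i k, ‖(Lm X v) (i, k)‖ ≤ 3 * r * ‖v‖ := by
    intro i k
    rw [Lm_apply]
    calc ‖∑ j, X i j (v (j, k))‖ ≤ ∑ j, ‖X i j (v (j, k))‖ := norm_sum_le _ _
      _ ≤ ∑ _j : Fin 3, r * ‖v‖ := by
          refine Finset.sum_le_sum fun j _ => ?_
          exact ((X i j).le_opNorm _).trans (mul_le_mul (hX i j) (k3_apply_le v j k)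
            (norm_nonneg _) hr)
      _ = 3 * r * ‖v‖ := by simp [mul_assoc]
  have := k3_norm_le (by positivity) h1
  linarith

theorem Rm_op (ρ' : (H →L[ℂ] H) → (H →L[ℂ] H)) {r : ℝ} (hr : 0 ≤ r) {X : Mat H}
    (hX : ∀ i k, ‖ρ' (X i k)‖ ≤ r) : ‖Rm ρ' X‖ ≤ 9 * r := by
  refine ContinuousLinearMap.opNorm_le_bound _ (by positivity) fun v => ?_
  have h1 : ∀ i k, ‖(Rm ρ' X v) (i, k)‖ ≤ 3 * r * ‖v‖ := by
    intro i k
    rw [Rm_apply]
    calc ‖∑ j, ρ' (X j k) (v (i, j))‖ ≤ ∑ j, ‖ρ' (X j k) (v (i, j))‖ := norm_sum_le _ _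
      _ ≤ ∑ _j : Fin 3, r * ‖v‖ := by
          refine Finset.sum_le_sum fun j _ => ?_
          exact ((ρ' (X j k)).le_opNorm _).trans (mul_le_mul (hX j k) (k3_apply_le v i j)
            (norm_nonneg _) hr)
      _ = 3 * r * ‖v‖ := by simp [mul_assoc]
  have := k3_norm_le (by positivity) h1
  linarith

theorem Rm_opE (hS : Std M ξ ρ) {r : ℝ} (hr : 0 ≤ r) {X : Mat H} (hX : Ent M r X) :
    ‖Rm ρ X‖ ≤ 9 * r :=
  Rm_op ρ hr fun i k => by rw [hS.norm _ (hX i k).1]; exact (hX i k).2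

theorem Lm_opE {r : ℝ} (hr : 0 ≤ r) {X : Mat H} (hX : Ent M r X) : ‖Lm X‖ ≤ 9 * r :=
  Lm_op hr fun i k => (hX i k).2

theorem vm_Lm (X Y : Mat H) : vm ξ (mm X Y) = Lm X (vm ξ Y) := by
  apply k3_ext
  intro i k
  rw [vm_apply, Lm_apply]
  simp only [mm, sum_apply, mul_apply_eq_comp, vm_apply]

theorem vm_Rm (hS : Std M ξ ρ) {X Y : Mat H} (hX : ∀ i k, X i k ∈ M) (hY : ∀ i k, Y i k ∈ M) :
    vm ξ (mm X Y) = Rm ρ Y (vm ξ X) := by
  apply k3_ext
  intro i k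
  rw [vm_apply, Rm_apply]
  simp only [mm, sum_apply, mul_apply_eq_comp, vm_apply]
  refine Finset.sum_congr rfl fun j _ => ?_
  rw [← hS.vec _ (hY j k)]
  have h1 := hS.comm _ (hY j k) _ (hX i j)
  have h2 := congrArg (fun T : H →L[ℂ] H => T ξ) h1
  simp only [mul_apply_eq_comp] at h2
  exact h2.symm

theorem vm_norm {X : Mat H} {b : ℝ} (hb : 0 ≤ b) (h : ∀ i k, ‖X i k ξ‖ ≤ b) :
    ‖vm ξ X‖ ≤ 3 * b := k3_norm_le hb h

/-- (a) -/
theorem cm_T (hc : CD M ξ ρ c T T' γ δ ε) (hε : 0 ≤ ε) {r r' : ℝ} (hr : 0 ≤ r)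
    {X B : Mat H} (hX : Ent M r X) (hB : Ent M r' B) :
    ‖cm c X B - (Lm (mp T X) (vm ξ B) - Rm ρ B (vm ξ (mp T X)))‖ ≤ 9 * ε * r * r' := by
  have hr' : 0 ≤ r' := (norm_nonneg _).trans (hB 0 0).2
  have h1 : ∀ i k, ‖(cm c X B - (Lm (mp T X) (vm ξ B) - Rm ρ B (vm ξ (mp T X)))) (i, k)‖ ≤
      3 * ε * r * r' := by
    intro i k
    rw [k3_sub, k3_sub, cm_apply, Lm_apply, Rm_apply, ← Finset.sum_sub_distrib,
      ← Finset.sum_sub_distrib]
    calc ‖∑ j, (c (X i j) (B j k) - ((mp T X i j) ((vm ξ B) (j, k)) -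
          (ρ (B j k)) ((vm ξ (mp T X)) (i, j))))‖
        ≤ ∑ j, ‖c (X i j) (B j k) - ((mp T X i j) ((vm ξ B) (j, k)) -
          (ρ (B j k)) ((vm ξ (mp T X)) (i, j)))‖ := norm_sum_le _ _
      _ ≤ ∑ _j : Fin 3, ε * r * r' := by
          refine Finset.sum_le_sum fun j _ => ?_
          refine (hc.eqT _ (hX i j).1 _ (hB j k).1).trans ?_
          exact mul_le_mul (mul_le_mul_of_nonneg_left (hX i j).2 hε) (hB j k).2 (norm_nonneg _)
            (by positivity)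
      _ = 3 * ε * r * r' := by simp [mul_assoc]
  have := k3_norm_le (by positivity) h1
  linarith

/-- (b) -/
theorem cm_T' (hc : CD M ξ ρ c T T' γ δ ε) {r r' : ℝ} {Y B : Mat H} (hY : Ent M r Y)
    (hB : Ent M r' B) :
    cm c Y B = Lm Y (vm ξ (mp T' B)) - Rm (fun x => x) (mp T' B) (vm ξ Y) := by
  apply k3_ext
  intro i k
  rw [k3_sub, cm_apply, Lm_apply, Rm_apply, ← Finset.sum_sub_distrib]
  refine Finset.sum_congr rfl fun j _ => ?_
  exact hc.eqT' _ (hY i j).1 _ (hB j k).1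

theorem opr : S_OPR := by
  refine ⟨10000, by norm_num, ?_⟩
  intro H _ _ _ M ξ ρ c T T' γ δ ε hS hγ hδ hε hc I s t E hE _ hs ht
  have es : ∀ i, Ent M 1 (s i) := fun i => isU_ent (hs i)
  have et : ∀ i, Ent M 1 (t i) := fun i => isU_ent (ht i)
  have es' : ∀ i, Ent M 1 (ms (s i)) := fun i => ent_ms (es i)
  have et' : ∀ i, Ent M 1 (ms (t i)) := fun i => ent_ms (et i)
  have bT : ∀ X : Mat H, Ent M 1 X → ∀ i k, ‖mp T X i k‖ ≤ γ := fun X hX i k =>
    (hc.nT _ (hX i k).1).trans (mul_le_of_le_one_right hγ (hX i k).2)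
  have bT' : ∀ X : Mat H, Ent M 1 X → ∀ i k, ‖mp T' X i k‖ ≤ γ := fun X hX i k =>
    (hc.nT' _ (hX i k).1).trans (mul_le_of_le_one_right hγ (hX i k).2)
  have vT : ∀ X : Mat H, Ent M 1 X → ‖vm ξ (mp T X)‖ ≤ 3 * δ := fun X hX =>
    vm_norm hδ fun i k => (hc.vT _ (hX i k).1).trans (mul_le_of_le_one_right hδ (hX i k).2)
  have vT' : ∀ X : Mat H, Ent M 1 X → ‖vm ξ (mp T' X)‖ ≤ 3 * δ := fun X hX =>
    vm_norm hδ fun i k => (hc.vT' _ (hX i k).1).trans (mul_le_of_le_one_right hδ (hX i k).2)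
  -- operator norms
  have oL : ∀ X : Mat H, Ent M 1 X → ∀ v : K3 H, ‖Lm X v‖ ≤ 9 * ‖v‖ := fun X hX v => by
    have := Lm_bound zero_le_one hX v
    linarith
  have oR : ∀ X : Mat H, Ent M 1 X → ∀ v : K3 H, ‖Rm ρ X v‖ ≤ 9 * ‖v‖ := fun X hX v => by
    have := Rm_bound hS zero_le_one hX v
    linarith
  have oLT : ∀ X : Mat H, Ent M 1 X → ∀ v : K3 H, ‖Lm (mp T X) v‖ ≤ 9 * γ * ‖v‖ := fun X hX v =>
    (Lm (mp T X)).le_of_opNorm_le (Lm_op hγ (bT X hX)) v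
  have oRT' : ∀ X : Mat H, Ent M 1 X → ∀ v : K3 H,
      ‖Rm (fun x => x) (mp T' X) v‖ ≤ 9 * γ * ‖v‖ := fun X hX v =>
    (Rm (fun x => x) (mp T' X)).le_of_opNorm_le (Rm_op (fun x => x) hγ (bT' X hX)) v
  -- the operators
  obtain ⟨A, hA, hAv⟩ := exists_meanOp hE
    (fun i => (Rm ρ (s i)) ∘L (Lm (mp T (t i))) ∘L (Lm (ms (t i))) ∘L (Rm ρ (ms (s i))) +
      (Rm ρ (s i)) ∘L (Rm (fun x => x) (mp T' (ms (s i))))) (C := 10000 * γ) (by positivity) (by
    intro i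
    refine ContinuousLinearMap.opNorm_le_bound _ (by positivity) fun v => ?_
    simp only [add_apply, ContinuousLinearMap.comp_apply]
    have a1 := oR _ (es' i) v
    have a2 := oL _ (et' i) (Rm ρ (ms (s i)) v)
    have a3 := oLT _ (et i) (Lm (ms (t i)) (Rm ρ (ms (s i)) v))
    have a4 := oR _ (es i) (Lm (mp T (t i)) (Lm (ms (t i)) (Rm ρ (ms (s i)) v)))
    have a5 := oRT' _ (es' i) v
    have a6 := oR _ (es i) (Rm (fun x => x) (mp T' (ms (s i))) v)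
    have a7 : 9 * γ * ‖Lm (ms (t i)) (Rm ρ (ms (s i)) v)‖ ≤ 9 * γ * (81 * ‖v‖) :=
      mul_le_mul_of_nonneg_left (by linarith) (by positivity)
    have a8 : 0 ≤ γ * ‖v‖ := by positivity
    refine (norm_add_le _ _).trans ?_
    nlinarith)
  obtain ⟨B, hB, hBv⟩ := exists_meanOp hE
    (fun i => (Rm ρ (ms (t i))) ∘L (Rm (fun x => x) (mp T' (t i))) -
      (Lm (ms (s i))) ∘L (Rm ρ (ms (t i))) ∘L (Lm (mp T (s i))) ∘L (Rm ρ (t i)))
    (C := 10000 * γ) (by positivity) (by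
    intro i
    refine ContinuousLinearMap.opNorm_le_bound _ (by positivity) fun v => ?_
    simp only [sub_apply, ContinuousLinearMap.comp_apply]
    have a1 := oR _ (et i) v
    have a2 := oLT _ (es i) (Rm ρ (t i) v)
    have a3 := oR _ (et' i) (Lm (mp T (s i)) (Rm ρ (t i) v))
    have a4 := oL _ (es' i) (Rm ρ (ms (t i)) (Lm (mp T (s i)) (Rm ρ (t i) v)))
    have a5 := oRT' _ (et i) v
    have a6 := oR _ (et' i) (Rm (fun x => x) (mp T' (t i)) v)
    have a7 : 9 * γ * ‖Rm ρ (t i) v‖ ≤ 9 * γ * (9 * ‖v‖) :=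
      mul_le_mul_of_nonneg_left (by linarith) (by positivity)
    have a8 : 0 ≤ γ * ‖v‖ := by positivity
    refine (norm_sub_le _ _).trans ?_
    nlinarith)
  -- boundedness of the vectors
  have n1 : ∀ i, ‖Rm ρ (s i) (vm ξ (mp T' (ms (s i))))‖ ≤ 27 * δ := fun i => by
    have := oR _ (es i) (vm ξ (mp T' (ms (s i))))
    have := vT' _ (es' i)
    linarith
  have n2 : ∀ i, ‖Rm ρ (ms (t i)) (vm ξ (mp T (t i)))‖ ≤ 27 * δ := fun i => by
    have := oR _ (et' i) (vm ξ (mp T (t i)))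
    have := vT _ (et i)
    linarith
  have n3 : ∀ i, ‖Rm ρ (ms (t i)) (vm ξ (mp T' (t i)))‖ ≤ 27 * δ := fun i => by
    have := oR _ (et' i) (vm ξ (mp T' (t i)))
    have := vT' _ (et i)
    linarith
  have n4 : ∀ i, ‖Lm (ms (s i)) (vm ξ (mp T (s i)))‖ ≤ 27 * δ := fun i => by
    have := oL _ (es' i) (vm ξ (mp T (s i)))
    have := vT _ (es i)
    linarith
  have bd1 : Bd (fun i => Rm ρ (s i) (vm ξ (mp T' (ms (s i))))) := ⟨_, n1⟩
  have bd2 : Bd (fun i => Rm ρ (ms (t i)) (vm ξ (mp T (t i)))) := ⟨_, n2⟩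
  have bd3 : Bd (fun i => Rm ρ (ms (t i)) (vm ξ (mp T' (t i)))) := ⟨_, n3⟩
  have bd4 : Bd (fun i => Lm (ms (s i)) (vm ξ (mp T (s i)))) := ⟨_, n4⟩
  refine ⟨A, B, -E (fun i => Rm ρ (s i) (vm ξ (mp T' (ms (s i))))),
    -E (fun i => Rm ρ (ms (t i)) (vm ξ (mp T (t i)))),
    -E (fun i => Rm ρ (ms (t i)) (vm ξ (mp T' (t i)))),
    E (fun i => Lm (ms (s i)) (vm ξ (mp T (s i)))), hA, hB, ?_, ?_, ?_, ?_, ?_, ?_, ?_, ?_⟩
  · rw [norm_neg]; exact (hE.bound _ _ n1).trans (by linarith)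
  · rw [norm_neg]; exact (hE.bound _ _ n2).trans (by linarith)
  · rw [norm_neg]; exact (hE.bound _ _ n3).trans (by linarith)
  · exact (hE.bound _ _ n4).trans (by linarith)
  · intro Y hY
    have hYM : ∀ i k, Y i k ∈ M := fun i k => (hY i k).1
    have eYS : ∀ i, Ent M 3 (mm Y (ms (s i))) := fun i =>
      ent_mono (ent_mm zero_le_one hY (es' i)) (by norm_num)
    have eZ : ∀ i, Ent M 9 (mm (ms (t i)) (mm Y (ms (s i)))) := fun i =>
      ent_mono (ent_mm zero_le_one (et' i) (eYS i)) (by norm_num)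
    obtain ⟨er, her⟩ : ∃ er : I → K3 H, er = fun i => Rm ρ (s i)
      (cm c (t i) (mm (ms (t i)) (mm Y (ms (s i)))) -
        (Lm (mp T (t i)) (vm ξ (mm (ms (t i)) (mm Y (ms (s i))))) -
          Rm ρ (mm (ms (t i)) (mm Y (ms (s i)))) (vm ξ (mp T (t i))))) := ⟨_, rfl⟩
    have her2 : ∀ i, ‖er i‖ ≤ 729 * ε := fun i => by
      rw [her]
      have h1 := cm_T hc hε zero_le_one (et i) (eZ i)
      have h2 := oR _ (es i) (cm c (t i) (mm (ms (t i)) (mm Y (ms (s i)))) -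
        (Lm (mp T (t i)) (vm ξ (mm (ms (t i)) (mm Y (ms (s i))))) -
          Rm ρ (mm (ms (t i)) (mm Y (ms (s i)))) (vm ξ (mp T (t i)))))
      refine h2.trans ?_
      linarith
    have ber : Bd er := ⟨_, her2⟩
    have hdec : (fun i => Rm ρ (s i) (cm c (t i) (mm (ms (t i)) (mm Y (ms (s i)))))
        - Rm ρ (s i) (cm c Y (ms (s i)))) = fun i =>
        (((((Rm ρ (s i)) ∘L (Lm (mp T (t i))) ∘L (Lm (ms (t i))) ∘L (Rm ρ (ms (s i))) +
          (Rm ρ (s i)) ∘L (Rm (fun x => x) (mp T' (ms (s i))))) (vm ξ Y)) -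
          Lm Y (Rm ρ (s i) (vm ξ (mp T' (ms (s i)))))) -
          Rm ρ Y (Rm ρ (ms (t i)) (vm ξ (mp T (t i))))) + er i := by
      funext i
      have hsM : ∀ i' k, s i i' k ∈ M := (hs i).1
      have hSM : ∀ i' k, ms (s i) i' k ∈ M := fun i' k => (es' i i' k).1
      have hTM : ∀ i' k, ms (t i) i' k ∈ M := fun i' k => (et' i i' k).1
      have hZM : ∀ i' k, (mm (ms (t i)) (mm Y (ms (s i)))) i' k ∈ M := fun i' k =>
        (eZ i i' k).1
      have f3 : mm (mm (ms (t i)) (mm Y (ms (s i)))) (s i) = mm (ms (t i)) Y := by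
        rw [mm_assoc, mm_assoc, (hs i).2.1, mm_m1]
      have g1 : vm ξ (mm (ms (t i)) (mm Y (ms (s i)))) =
          Lm (ms (t i)) (Rm ρ (ms (s i)) (vm ξ Y)) := by
        rw [vm_Lm, vm_Rm hS hYM hSM]
      have g2 : ∀ v : K3 H, Rm ρ (s i) (Rm ρ (mm (ms (t i)) (mm Y (ms (s i)))) v) =
          Rm ρ Y (Rm ρ (ms (t i)) v) := by
        intro v
        rw [← Rm_mm hS hZM hsM, f3, Rm_mm hS hTM hYM]
      have g3 : ∀ v : K3 H, Rm ρ (s i) (Lm Y v) = Lm Y (Rm ρ (s i) v) := fun v =>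
        (Lm_Rm hS hYM hsM v).symm
      rw [her, cm_T' hc hY (es' i)]
      simp only [map_sub, g1, g2, g3, add_apply,
        ContinuousLinearMap.comp_apply]
      abel
    have b0 : Bd (fun i => ((Rm ρ (s i)) ∘L (Lm (mp T (t i))) ∘L (Lm (ms (t i))) ∘L
        (Rm ρ (ms (s i))) + (Rm ρ (s i)) ∘L (Rm (fun x => x) (mp T' (ms (s i))))) (vm ξ Y)) := by
      refine ⟨10000 * γ * ‖vm ξ Y‖, fun i => ?_⟩
      simp only [add_apply, ContinuousLinearMap.comp_apply]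
      have a1 := oR _ (es' i) (vm ξ Y)
      have a2 := oL _ (et' i) (Rm ρ (ms (s i)) (vm ξ Y))
      have a3 := oLT _ (et i) (Lm (ms (t i)) (Rm ρ (ms (s i)) (vm ξ Y)))
      have a4 := oR _ (es i) (Lm (mp T (t i)) (Lm (ms (t i)) (Rm ρ (ms (s i)) (vm ξ Y))))
      have a5 := oRT' _ (es' i) (vm ξ Y)
      have a6 := oR _ (es i) (Rm (fun x => x) (mp T' (ms (s i))) (vm ξ Y))
      have a7 : 9 * γ * ‖Lm (ms (t i)) (Rm ρ (ms (s i)) (vm ξ Y))‖ ≤ 9 * γ * (81 * ‖vm ξ Y‖) :=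
        mul_le_mul_of_nonneg_left (by linarith) (by positivity)
      have a8 : 0 ≤ γ * ‖vm ξ Y‖ := by positivity
      refine (norm_add_le _ _).trans ?_
      nlinarith
    have hval : pp ρ c s t E Y = A (vm ξ Y) - Lm Y (E (fun i => Rm ρ (s i)
        (vm ξ (mp T' (ms (s i)))))) - Rm ρ Y (E (fun i => Rm ρ (ms (t i)) (vm ξ (mp T (t i))))) +
        E er := by
      rw [pp, hdec, E_add hE ((b0.sub (bd1.clm (Lm Y))).sub (bd2.clm (Rm ρ Y))) ber,
        E_sub hE (b0.sub (bd1.clm (Lm Y))) (bd2.clm (Rm ρ Y)), E_sub hE b0 (bd1.clm (Lm Y)),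
        E_clm hE (Lm Y) bd1, E_clm hE (Rm ρ Y) bd2, hAv]
    have hfin : pp ρ c s t E Y - (A (vm ξ Y) + Lm Y (-E (fun i => Rm ρ (s i)
        (vm ξ (mp T' (ms (s i)))))) + Rm ρ Y (-E (fun i => Rm ρ (ms (t i))
          (vm ξ (mp T (t i)))))) = E er := by
      rw [hval, map_neg, map_neg]
      abel
    rw [hfin]
    exact (hE.bound _ _ her2).trans (by linarith)
  · intro X hX
    have hXM : ∀ i k, X i k ∈ M := fun i k => (hX i k).1
    have eXt : ∀ i, Ent M 3 (mm X (t i)) := fun i =>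
      ent_mono (ent_mm zero_le_one hX (et i)) (by norm_num)
    obtain ⟨er, her⟩ : ∃ er : I → K3 H, er = fun i => Lm (ms (s i)) (Rm ρ (ms (t i))
      (cm c (s i) (mm X (t i)) - (Lm (mp T (s i)) (vm ξ (mm X (t i))) -
          Rm ρ (mm X (t i)) (vm ξ (mp T (s i)))))) := ⟨_, rfl⟩
    have her2 : ∀ i, ‖er i‖ ≤ 2187 * ε := fun i => by
      rw [her]
      have h1 := cm_T hc hε zero_le_one (es i) (eXt i)
      have h2 := oR _ (et' i) (cm c (s i) (mm X (t i)) - (Lm (mp T (s i)) (vm ξ (mm X (t i))) -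
          Rm ρ (mm X (t i)) (vm ξ (mp T (s i)))))
      have h3 := oL _ (es' i) (Rm ρ (ms (t i)) (cm c (s i) (mm X (t i)) -
        (Lm (mp T (s i)) (vm ξ (mm X (t i))) - Rm ρ (mm X (t i)) (vm ξ (mp T (s i))))))
      refine h3.trans ?_
      linarith
    have ber : Bd er := ⟨_, her2⟩
    have hdec : (fun i => Rm ρ (ms (t i)) (cm c X (t i))
        + Lm (ms (s i)) (Rm ρ (ms (t i)) (cm c (s i) (mm X (t i))))) = fun i =>
        ((Lm X (Rm ρ (ms (t i)) (vm ξ (mp T' (t i)))) -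
          ((Rm ρ (ms (t i))) ∘L (Rm (fun x => x) (mp T' (t i))) -
          (Lm (ms (s i))) ∘L (Rm ρ (ms (t i))) ∘L (Lm (mp T (s i))) ∘L (Rm ρ (t i))) (vm ξ X)) -
          Rm ρ X (Lm (ms (s i)) (vm ξ (mp T (s i))))) + er i := by
      funext i
      have hsM : ∀ i' k, s i i' k ∈ M := (hs i).1
      have htM : ∀ i' k, t i i' k ∈ M := (ht i).1
      have hSM : ∀ i' k, ms (s i) i' k ∈ M := fun i' k => (es' i i' k).1
      have hTM : ∀ i' k, ms (t i) i' k ∈ M := fun i' k => (et' i i' k).1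
      have hXtM : ∀ i' k, (mm X (t i)) i' k ∈ M := fun i' k => (eXt i i' k).1
      have f3 : mm (mm X (t i)) (ms (t i)) = X := by
        rw [mm_assoc, (ht i).2.2, mm_m1]
      have g1 : vm ξ (mm X (t i)) = Rm ρ (t i) (vm ξ X) := vm_Rm hS hXM htM
      have g2 : ∀ v : K3 H, Lm (ms (s i)) (Rm ρ (ms (t i)) (Rm ρ (mm X (t i)) v)) =
          Rm ρ X (Lm (ms (s i)) v) := by
        intro v
        rw [← Rm_mm hS hXtM hTM, f3, Lm_Rm hS hSM hXM]
      have g3 : ∀ v : K3 H, Rm ρ (ms (t i)) (Lm X v) = Lm X (Rm ρ (ms (t i)) v) := fun v =>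
        (Lm_Rm hS hXM hTM v).symm
      rw [her, cm_T' hc hX (et i)]
      simp only [map_sub, g1, g2, g3, sub_apply,
        ContinuousLinearMap.comp_apply]
      abel
    have b0 : Bd (fun i => ((Rm ρ (ms (t i))) ∘L (Rm (fun x => x) (mp T' (t i))) -
          (Lm (ms (s i))) ∘L (Rm ρ (ms (t i))) ∘L (Lm (mp T (s i))) ∘L (Rm ρ (t i))) (vm ξ X)) := by
      refine ⟨10000 * γ * ‖vm ξ X‖, fun i => ?_⟩
      simp only [sub_apply, ContinuousLinearMap.comp_apply]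
      have a1 := oR _ (et i) (vm ξ X)
      have a2 := oLT _ (es i) (Rm ρ (t i) (vm ξ X))
      have a3 := oR _ (et' i) (Lm (mp T (s i)) (Rm ρ (t i) (vm ξ X)))
      have a4 := oL _ (es' i) (Rm ρ (ms (t i)) (Lm (mp T (s i)) (Rm ρ (t i) (vm ξ X))))
      have a5 := oRT' _ (et i) (vm ξ X)
      have a6 := oR _ (et' i) (Rm (fun x => x) (mp T' (t i)) (vm ξ X))
      have a7 : 9 * γ * ‖Rm ρ (t i) (vm ξ X)‖ ≤ 9 * γ * (9 * ‖vm ξ X‖) :=
        mul_le_mul_of_nonneg_left (by linarith) (by positivity)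
      have a8 : 0 ≤ γ * ‖vm ξ X‖ := by positivity
      refine (norm_sub_le _ _).trans ?_
      nlinarith
    have hval : qq ρ c s t E X = -(Lm X (E (fun i => Rm ρ (ms (t i)) (vm ξ (mp T' (t i))))) -
        B (vm ξ X) - Rm ρ X (E (fun i => Lm (ms (s i)) (vm ξ (mp T (s i))))) + E er) := by
      rw [qq, hdec, E_add hE (((bd3.clm (Lm X)).sub b0).sub (bd4.clm (Rm ρ X))) ber,
        E_sub hE ((bd3.clm (Lm X)).sub b0) (bd4.clm (Rm ρ X)), E_sub hE (bd3.clm (Lm X)) b0,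
        E_clm hE (Lm X) bd3, E_clm hE (Rm ρ X) bd4, hBv]
    have hfin : qq ρ c s t E X - (B (vm ξ X) + Lm X (-E (fun i => Rm ρ (ms (t i))
        (vm ξ (mp T' (t i))))) + Rm ρ X (E (fun i => Lm (ms (s i)) (vm ξ (mp T (s i)))))) =
        -E er := by
      rw [hval, map_neg]
      abel
    rw [hfin, norm_neg]
    exact (hE.bound _ _ her2).trans (by linarith)
  · intro Y hY
    have eYS : ∀ i, Ent M 3 (mm Y (ms (s i))) := fun i =>
      ent_mono (ent_mm zero_le_one hY (es' i)) (by norm_num)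
    have eZ : ∀ i, Ent M 9 (mm (ms (t i)) (mm Y (ms (s i)))) := fun i =>
      ent_mono (ent_mm zero_le_one (et' i) (eYS i)) (by norm_num)
    have h : ∀ i, ‖Rm ρ (s i) (cm c (t i) (mm (ms (t i)) (mm Y (ms (s i)))))
        - Rm ρ (s i) (cm c Y (ms (s i)))‖ ≤ 10000 * δ := fun i => by
      have a1 := oR _ (es i) (cm c (t i) (mm (ms (t i)) (mm Y (ms (s i)))))
      have a2 := oR _ (es i) (cm c Y (ms (s i)))
      have a3 := cm_bound hc hδ zero_le_one (et i) (eZ i)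
      have a4 := cm_bound hc hδ zero_le_one hY (es' i)
      refine (norm_sub_le _ _).trans ?_
      linarith
    exact hE.bound _ _ h
  · intro X hX
    have eXt : ∀ i, Ent M 3 (mm X (t i)) := fun i =>
      ent_mono (ent_mm zero_le_one hX (et i)) (by norm_num)
    have h : ∀ i, ‖Rm ρ (ms (t i)) (cm c X (t i))
        + Lm (ms (s i)) (Rm ρ (ms (t i)) (cm c (s i) (mm X (t i))))‖ ≤ 10000 * δ := fun i => by
      have a1 := oR _ (et' i) (cm c X (t i))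
      have a2 := oR _ (et' i) (cm c (s i) (mm X (t i)))
      have a2' := oL _ (es' i) (Rm ρ (ms (t i)) (cm c (s i) (mm X (t i))))
      have a3 := cm_bound hc hδ zero_le_one hX (et i)
      have a4 := cm_bound hc hδ zero_le_one (es i) (eXt i)
      refine (norm_add_le _ _).trans ?_
      linarith
    rw [qq, norm_neg]
    exact hE.bound _ _ h

end Pool.Agent.W337.KKS
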